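import Mathlib

/-!
# Disjoint maximal cliques in group graphs: the Euler characteristic argument

If a maximal clique `C` of a finite graph meets every maximal clique, then the alternating sum
of `(-1) ^ |s|` over all complete sets `s` (the empty set included) is `0`.  A `p`-group acting
on the graph then leaves a nonempty complete set invariant.
-/

namespace Pool.Agent.H93.Cay

open Finset

section Euler

variable {V : Type*} [Fintype V] [DecidableEq V] (G : SimpleGraph V)

open Classical in
/-- The complete sets, as finsets (the empty set included). -/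
noncomputable def cl : Finset (Finset V) := univ.filter (fun s => G.IsClique (s : Set V))

theorem mem_cl {s : Finset V} : s ∈ cl G ↔ G.IsClique (s : Set V) := by
  simp [cl]

/-- Toggling a vertex that is adjacent to all others. -/
theorem sum_toggle (N : Finset V) (t : V) (ht : t ∈ N) (hN : ∀ v ∈ N, v ≠ t → G.Adj t v) :
    ∑ s ∈ (cl G).filter (fun s => s ⊆ N), (-1 : ℤ) ^ s.card = 0 := by
  classical
  refine Finset.sum_involution (fun s _ => if t ∈ s then s.erase t else insert t s) ?_ ?_ ?_ ?_
  · intro s _
    by_cases h : t ∈ s
    · simp only [h, if_true]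
      rw [← Finset.card_erase_add_one h]
      ring
    · simp only [h, if_false]
      rw [Finset.card_insert_of_notMem h]
      ring
  · intro s _ _ hs
    by_cases h : t ∈ s
    · simp only [h, if_true] at hs
      have := hs ▸ Finset.notMem_erase t s
      exact this h
    · simp only [h, if_false] at hs
      exact h (hs ▸ Finset.mem_insert_self t s)
  · intro s hs
    rw [Finset.mem_filter, mem_cl] at hs
    rw [Finset.mem_filter, mem_cl]
    by_cases h : t ∈ s
    · simp only [h, if_true]
      exact ⟨hs.1.subset (by simp), (Finset.erase_subset _ _).trans hs.2⟩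
    · simp only [h, if_false]
      refine ⟨?_, Finset.insert_subset ht hs.2⟩
      rw [Finset.coe_insert]
      refine hs.1.insert ?_
      intro v hv hne
      exact hN v (hs.2 hv) (Ne.symm hne)
  · intro s _
    by_cases h : t ∈ s
    · simp [h, Finset.insert_erase h]
    · simp [h, Finset.erase_insert h]

/-- The alternating sum vanishes. -/
theorem sum_cl_eq_zero (C : Finset V) (hC : G.IsClique (C : Set V))
    (h : ∀ s : Finset V, G.IsClique (s : Set V) → ∃ c ∈ C, ∀ v ∈ s, v ≠ c → G.Adj c v) :
    ∑ s ∈ cl G, (-1 : ℤ) ^ s.card = 0 := by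
  classical
  set T : Finset V → Finset V := fun s => C.filter (fun c => ∀ v ∈ s, v ≠ c → G.Adj c v) with hT
  have h0 : ∑ s ∈ cl G, (-1 : ℤ) ^ s.card * ∑ t ∈ (T s).powerset, (-1 : ℤ) ^ t.card = 0 := by
    refine Finset.sum_eq_zero ?_
    intro s hs
    obtain ⟨c, hc, hc2⟩ := h s ((mem_cl G).1 hs)
    have hne : (T s).Nonempty := ⟨c, by rw [hT]; simp only [Finset.mem_filter]; exact ⟨hc, hc2⟩⟩
    rw [Finset.sum_powerset_neg_one_pow_card_of_nonempty hne, mul_zero]
  have h1 : ∀ s, ∑ t ∈ (T s).powerset, (-1 : ℤ) ^ t.card =
      ∑ t ∈ C.powerset, if t ⊆ T s then (-1 : ℤ) ^ t.card else 0 := by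
    intro s
    rw [← Finset.sum_filter]
    refine Finset.sum_congr ?_ (fun _ _ => rfl)
    ext t
    rw [Finset.mem_powerset, Finset.mem_filter, Finset.mem_powerset]
    exact ⟨fun h => ⟨h.trans (Finset.filter_subset _ _), h⟩, fun h => h.2⟩
  have h2 : ∑ t ∈ C.powerset, (-1 : ℤ) ^ t.card *
      ∑ s ∈ (cl G).filter (fun s => t ⊆ T s), (-1 : ℤ) ^ s.card = 0 := by
    rw [← h0]
    simp_rw [h1, Finset.mul_sum, Finset.sum_filter]
    rw [Finset.sum_comm]
    refine Finset.sum_congr rfl (fun s _ => Finset.sum_congr rfl (fun t _ => ?_))
    split_ifs <;> ring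
  have h3 : ∀ t ∈ C.powerset, t ≠ ∅ →
      ∑ s ∈ (cl G).filter (fun s => t ⊆ T s), (-1 : ℤ) ^ s.card = 0 := by
    intro t ht hte
    rw [Finset.mem_powerset] at ht
    obtain ⟨t0, ht0⟩ := Finset.nonempty_iff_ne_empty.2 hte
    have h4 := sum_toggle G (univ.filter (fun v => ∀ c ∈ t, v ≠ c → G.Adj c v)) t0
      (by
        simp only [Finset.mem_filter, Finset.mem_univ, true_and]
        intro c hc hne
        exact hC (ht hc) (ht ht0) (Ne.symm hne))
      (by
        intro v hv hne
        simp only [Finset.mem_filter, Finset.mem_univ, true_and] at hv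
        exact hv t0 ht0 hne)
    rw [← h4]
    refine Finset.sum_congr ?_ (fun _ _ => rfl)
    ext s
    simp only [Finset.mem_filter, hT]
    refine and_congr_right (fun _ => ?_)
    constructor
    · intro h5 v hv
      simp only [Finset.mem_filter, Finset.mem_univ, true_and]
      intro c hc hne
      exact (Finset.mem_filter.1 (h5 hc)).2 v hv hne
    · intro h5 c hc
      rw [Finset.mem_filter]
      refine ⟨ht hc, fun v hv hne => ?_⟩
      have := h5 hv
      simp only [Finset.mem_filter, Finset.mem_univ, true_and] at this
      exact this c hc hne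
  rw [Finset.sum_eq_single ∅] at h2
  · simpa using h2
  · intro t ht hte
    rw [h3 t ht hte, mul_zero]
  · intro h6
    exact absurd (Finset.empty_mem_powerset C) h6

/-- As many complete sets of even size as of odd size. -/
theorem card_even_eq_card_odd (h : ∑ s ∈ cl G, (-1 : ℤ) ^ s.card = 0) :
    Nat.card {s : Finset V // G.IsClique (s : Set V) ∧ Even s.card} =
      Nat.card {s : Finset V // G.IsClique (s : Set V) ∧ ¬ Even s.card} := by
  classical
  have h1 : ∑ s ∈ cl G, (-1 : ℤ) ^ s.card =
      (((cl G).filter (fun s => Even s.card)).card : ℤ) -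
        (((cl G).filter (fun s => ¬ Even s.card)).card : ℤ) := by
    rw [← Finset.sum_filter_add_sum_filter_not (cl G) (fun s => Even s.card)]
    have h2 : ∑ s ∈ (cl G).filter (fun s => Even s.card), (-1 : ℤ) ^ s.card =
        ∑ s ∈ (cl G).filter (fun s => Even s.card), 1 :=
      Finset.sum_congr rfl (fun s hs => (Finset.mem_filter.1 hs).2.neg_one_pow)
    have h3 : ∑ s ∈ (cl G).filter (fun s => ¬ Even s.card), (-1 : ℤ) ^ s.card =
        ∑ s ∈ (cl G).filter (fun s => ¬ Even s.card), -1 :=
      Finset.sum_congr rfl (fun s hs =>
        (Nat.not_even_iff_odd.1 (Finset.mem_filter.1 hs).2).neg_one_pow)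
    rw [h2, h3]
    simp [sub_eq_add_neg]
  have h4 : Nat.card {s : Finset V // G.IsClique (s : Set V) ∧ Even s.card} =
      ((cl G).filter (fun s => Even s.card)).card := by
    rw [Nat.card_eq_fintype_card, Fintype.card_subtype]
    congr 1
    ext s
    simp [cl]
  have h5 : Nat.card {s : Finset V // G.IsClique (s : Set V) ∧ ¬ Even s.card} =
      ((cl G).filter (fun s => ¬ Even s.card)).card := by
    rw [Nat.card_eq_fintype_card, Fintype.card_subtype]
    congr 1
    ext s
    simp [cl]
  rw [h4, h5]
  rw [h] at h1
  omega

end Euler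

section Action

variable {X : Type*} [Group X] [Finite X]

open scoped Pointwise in
/-- The action of a subgroup on invariant sets of finsets. -/
@[reducible] noncomputable def act [DecidableEq X] (P : Subgroup X) (Q : Finset X → Prop)
    (hQ : ∀ (g : X) (s : Finset X), Q s → Q (g • s)) : MulAction P {s : Finset X // Q s} where
  smul g s := ⟨(g : X) • s.1, hQ g s.1 s.2⟩
  one_smul s := Subtype.ext (one_smul X s.1)
  mul_smul g h s := Subtype.ext (mul_smul (g : X) (h : X) s.1)

open scoped Pointwise in
/-- If `P` is a `p`-group and the graph is invariant, some nonempty complete set is invariant. -/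
theorem exists_invariant [DecidableEq X] (G : SimpleGraph X)
    (hG : ∀ g x y : X, G.Adj x y → G.Adj (g * x) (g * y))
    (hcard : Nat.card {s : Finset X // G.IsClique (s : Set X) ∧ Even s.card} =
      Nat.card {s : Finset X // G.IsClique (s : Set X) ∧ ¬ Even s.card})
    (p : ℕ) [hp : Fact p.Prime] (P : Subgroup X) (hP : IsPGroup p P) :
    ∃ s : Finset X, s.Nonempty ∧ G.IsClique (s : Set X) ∧ ∀ g ∈ P, g • s = s := by
  classical
  by_contra hcon
  push Not at hcon
  have hinv : ∀ (q : ℕ → Prop) (g : X) (s : Finset X), (G.IsClique (s : Set X) ∧ q s.card) →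
      (G.IsClique ((g • s : Finset X) : Set X) ∧ q (g • s).card) := by
    intro q g s hs
    refine ⟨?_, by rw [Finset.card_smul_finset]; exact hs.2⟩
    rw [Finset.coe_smul_finset]
    rintro x ⟨x', hx', rfl⟩ y ⟨y', hy', rfl⟩ hne
    exact hG g x' y' (hs.1 hx' hy' (fun h => hne (by rw [h])))
  have key : ∀ q : ℕ → Prop,
      Nat.card {s : Finset X // G.IsClique (s : Set X) ∧ q s.card} ≡
        (if q 0 then 1 else 0) [MOD p] := by
    intro q
    let _ := act P (fun s : Finset X => G.IsClique (s : Set X) ∧ q s.card) (hinv q)
    have h1 := hP.card_modEq_card_fixedPoints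
      ({s : Finset X // G.IsClique (s : Set X) ∧ q s.card})
    refine h1.trans ?_
    have h2 : Nat.card (MulAction.fixedPoints P
        {s : Finset X // G.IsClique (s : Set X) ∧ q s.card}) = if q 0 then 1 else 0 := by
      split_ifs with hq
      · have h3 : MulAction.fixedPoints P
            {s : Finset X // G.IsClique (s : Set X) ∧ q s.card} =
            {⟨∅, by simp, by simpa using hq⟩} := by
          ext s
          rw [Set.mem_singleton_iff]
          constructor
          · intro hs
            by_contra hne
            have hs1 : s.1.Nonempty := by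
              rw [Finset.nonempty_iff_ne_empty]
              intro h4
              exact hne (Subtype.ext h4)
            obtain ⟨g, hg, hg2⟩ := hcon s.1 hs1 s.2.1
            exact hg2 (congrArg Subtype.val (hs ⟨g, hg⟩))
          · rintro rfl
            intro g
            apply Subtype.ext
            exact Finset.smul_finset_empty _
        rw [h3]
        simp
      · have h3 : MulAction.fixedPoints P
            {s : Finset X // G.IsClique (s : Set X) ∧ q s.card} = ∅ := by
          ext s
          simp only [Set.mem_empty_iff_false, iff_false]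
          intro hs
          have hs1 : s.1.Nonempty := by
            rw [Finset.nonempty_iff_ne_empty]
            intro h4
            apply hq
            have := s.2.2
            rw [h4] at this
            simpa using this
          obtain ⟨g, hg, hg2⟩ := hcon s.1 hs1 s.2.1
          exact hg2 (congrArg Subtype.val (hs ⟨g, hg⟩))
        rw [h3]
        simp
    rw [h2]
  have hE := key Even
  have hO := key (fun n => ¬ Even n)
  simp only [Even.zero, if_true, not_true, if_false] at hE hO
  rw [hcard] at hE
  have h5 : 1 ≡ 0 [MOD p] := hE.symm.trans hO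
  have h6 : p ∣ 1 := (Nat.modEq_zero_iff_dvd).1 h5
  exact hp.out.one_lt.ne' (Nat.dvd_one.1 h6)

end Action

end Pool.Agent.H93.Cay
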